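import Mathlib

set_option autoImplicit false

namespace Pool.Agent.MP_db30a9_co

open FreeGroup

/-- the heads of two lists, if both exist, are different -/
def HeadNe {A : Type*} (a b : List A) : Prop :=
  ∀ x y, a.head? = some x → b.head? = some y → x ≠ y

theorem exists_split {A : Type*} [DecidableEq A] (l₁ l₂ : List A) :
    ∃ p a b : List A, l₁ = p ++ a ∧ l₂ = p ++ b ∧ HeadNe a b := by
  induction l₁ generalizing l₂ with
  | nil => exact ⟨[], [], l₂, rfl, rfl, by intro x y h; simp at h⟩
  | cons x l ih =>
    cases l₂ with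
    | nil => exact ⟨[], x :: l, [], rfl, rfl, by intro x y _ h; simp at h⟩
    | cons y l' =>
      by_cases hxy : x = y
      · subst hxy
        obtain ⟨p, a, b, h1, h2, h3⟩ := ih l'
        exact ⟨x :: p, a, b, by simp [h1], by simp [h2], h3⟩
      · refine ⟨[], x :: l, y :: l', rfl, rfl, ?_⟩
        intro u v hu hv
        simp at hu hv
        subst hu; subst hv; exact hxy

variable {α : Type*} [DecidableEq α]

theorem isReduced_invRev {a : List (α × Bool)} (h : FreeGroup.IsReduced a) : FreeGroup.IsReduced (invRev a) := by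
  rw [isReduced_iff_reduce_eq] at h ⊢
  rw [reduce_invRev, h]

omit [DecidableEq α] in
theorem isReduced_right {p a : List (α × Bool)} (h : FreeGroup.IsReduced (p ++ a)) : FreeGroup.IsReduced a :=
  (List.isChain_append.mp h).2.1

omit [DecidableEq α] in
theorem isReduced_left {p a : List (α × Bool)} (h : FreeGroup.IsReduced (p ++ a)) : FreeGroup.IsReduced p :=
  (List.isChain_append.mp h).1

omit [DecidableEq α] in
theorem isReduced_take {L : List (α × Bool)} (h : FreeGroup.IsReduced L) (j : ℕ) :
    FreeGroup.IsReduced (L.take j) :=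
  isReduced_left (a := L.drop j) (by rwa [List.take_append_drop])

omit [DecidableEq α] in
theorem isReduced_tail {a : α × Bool} {L : List (α × Bool)} (h : FreeGroup.IsReduced (a :: L)) :
    FreeGroup.IsReduced L :=
  isReduced_right (p := [a]) h

theorem isReduced_invRev_append {a b : List (α × Bool)} (ha : FreeGroup.IsReduced a) (hb : FreeGroup.IsReduced b)
    (h : HeadNe a b) : FreeGroup.IsReduced (invRev a ++ b) := by
  have h1 := isReduced_invRev ha
  unfold FreeGroup.IsReduced at h1 hb ⊢
  rw [List.isChain_append]
  refine ⟨h1, hb, ?_⟩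
  intro x hx y hy hxy
  cases a with
  | nil => simp [invRev] at hx
  | cons u a =>
    have hux : x = (u.1, !u.2) := by
      simp [invRev] at hx
      exact hx.symm
    have hne : u ≠ y := by
      apply h u y
      · simp
      · exact hy
    subst hux
    simp only at hxy ⊢
    rcases u with ⟨u1, u2⟩
    rcases y with ⟨y1, y2⟩
    simp only at hxy ⊢
    subst hxy
    cases u2 <;> cases y2 <;> simp_all

theorem toWord_quot {p a b : List (α × Bool)} (ha : FreeGroup.IsReduced (p ++ a)) (hb : FreeGroup.IsReduced (p ++ b))
    (h : HeadNe a b) : toWord ((mk (p ++ a))⁻¹ * mk (p ++ b)) = invRev a ++ b := by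
  have e : (mk (p ++ a))⁻¹ * mk (p ++ b) = mk (invRev a ++ b) := by
    have h1 : mk (p ++ a) = mk p * mk a := by rw [mul_mk]
    have h2 : mk (p ++ b) = mk p * mk b := by rw [mul_mk]
    rw [h1, h2, mul_inv_rev, mul_assoc, inv_mul_cancel_left, inv_mk, mul_mk]
  rw [e, toWord_mk]
  exact (isReduced_invRev_append (isReduced_right ha) (isReduced_right hb) h).reduce_eq

end Pool.Agent.MP_db30a9_co
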