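import Mathlib

set_option autoImplicit false

namespace Pool.Agent.MP_db30a9_co

open FreeGroup

variable {n : ℕ}

/-- letters -/
abbrev Letter (n : ℕ) := Fin n × Bool

/-- index of a letter -/
def idx (a : Letter n) : ℕ := 2 * a.1.val + (if a.2 then 1 else 0)

/-- inverse letter -/
def bar (a : Letter n) : Letter n := (a.1, !a.2)

theorem idx_lt (a : Letter n) : idx a < 2 * n := by
  rcases a with ⟨i, b⟩
  have := i.isLt
  unfold idx
  cases b <;> simp <;> omega

theorem idx_inj {a b : Letter n} (h : idx a = idx b) : a = b := by
  rcases a with ⟨i, x⟩
  rcases b with ⟨j, y⟩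
  unfold idx at h
  cases x <;> cases y <;> simp at h ⊢ <;> omega

/-- relative digit -/
def digit (e a : Letter n) : ℕ := if idx a < idx (bar e) then idx a else idx a - 1

theorem digit_lt {e a : Letter n} (h : a ≠ bar e) : digit e a < 2 * n - 1 := by
  have h1 := idx_lt a
  have h2 := idx_lt (bar e)
  have h3 : idx a ≠ idx (bar e) := fun h' => h (idx_inj h')
  unfold digit
  split_ifs <;> omega

theorem digit_inj {e a b : Letter n} (ha : a ≠ bar e) (hb : b ≠ bar e)
    (h : digit e a = digit e b) : a = b := by
  have h3 : idx a ≠ idx (bar e) := fun h' => ha (idx_inj h')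
  have h4 : idx b ≠ idx (bar e) := fun h' => hb (idx_inj h')
  apply idx_inj
  unfold digit at h
  split_ifs at h <;> omega

theorem isReduced_cons_cons_iff' {e a : Letter n} {L : List (Letter n)} :
    FreeGroup.IsReduced (e :: a :: L) ↔ a ≠ bar e ∧ FreeGroup.IsReduced (a :: L) := by
  rw [FreeGroup.isReduced_cons_cons]
  apply and_congr_left'
  rcases e with ⟨e1, e2⟩
  rcases a with ⟨a1, a2⟩
  unfold bar
  cases e2 <;> cases a2 <;> simp <;> exact ⟨fun h h' => h h'.symm, fun h h' => h h'.symm⟩

/-- value of a word relative to the previous letter -/
def val : Letter n → List (Letter n) → ℕ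
  | _, [] => 0
  | e, a :: L => digit e a * (2 * n - 1) ^ L.length + val a L

/-- absolute value of a word -/
def iota : List (Letter n) → ℕ
  | [] => 0
  | a :: L => idx a * (2 * n - 1) ^ L.length + val a L

theorem val_lt {e : Letter n} {L : List (Letter n)} (h : FreeGroup.IsReduced (e :: L)) :
    val e L < (2 * n - 1) ^ L.length := by
  induction L generalizing e with
  | nil => simp [val]
  | cons a L ih =>
    rw [isReduced_cons_cons_iff'] at h
    have h1 := ih h.2
    have h2 := digit_lt h.1
    simp only [val, List.length_cons]
    calc digit e a * (2 * n - 1) ^ L.length + val a L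
        < digit e a * (2 * n - 1) ^ L.length + (2 * n - 1) ^ L.length := by omega
      _ = (digit e a + 1) * (2 * n - 1) ^ L.length := by ring
      _ ≤ (2 * n - 1) * (2 * n - 1) ^ L.length := Nat.mul_le_mul_right _ h2
      _ = (2 * n - 1) ^ (L.length + 1) := by ring

theorem val_inj {e : Letter n} {L L' : List (Letter n)} (h : FreeGroup.IsReduced (e :: L))
    (h' : FreeGroup.IsReduced (e :: L')) (hl : L.length = L'.length) (hv : val e L = val e L') :
    L = L' := by
  induction L generalizing e L' with
  | nil => 
    cases L' with
    | nil => rfl
    | cons => simp at hl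
  | cons a L ih =>
    cases L' with
    | nil => simp at hl
    | cons b L' =>
      simp only [List.length_cons, Nat.add_right_cancel_iff] at hl
      rw [isReduced_cons_cons_iff'] at h h'
      simp only [val] at hv
      rw [← hl] at hv
      have h1 := val_lt h.2
      have h2 := val_lt h'.2
      rw [← hl] at h2
      have hpos : 0 < (2 * n - 1) ^ L.length := by omega
      have hd : digit e a = digit e b := by
        have e1 : (digit e a * (2 * n - 1) ^ L.length + val a L) / (2 * n - 1) ^ L.length
            = digit e a := by
          rw [Nat.add_comm, Nat.add_mul_div_right _ _ hpos, Nat.div_eq_of_lt h1, Nat.zero_add]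
        have e2 : (digit e b * (2 * n - 1) ^ L.length + val b L') / (2 * n - 1) ^ L.length
            = digit e b := by
          rw [Nat.add_comm, Nat.add_mul_div_right _ _ hpos, Nat.div_eq_of_lt h2, Nat.zero_add]
        rw [← e1, ← e2, hv]
      have hab := digit_inj h.1 h'.1 hd
      subst hab
      have hv' : val a L = val a L' := by
        rw [hd] at hv
        exact Nat.add_left_cancel hv
      rw [ih h.2 h'.2 hl hv']

theorem iota_lt {L : List (Letter n)} (h : FreeGroup.IsReduced L) (hn : 0 < n) :
    iota L < 2 * n * (2 * n - 1) ^ (L.length - 1) := by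
  cases L with
  | nil => simp [iota]; omega
  | cons a L =>
    have h1 := val_lt h
    have h2 := idx_lt a
    simp only [iota, List.length_cons, Nat.add_sub_cancel]
    calc idx a * (2 * n - 1) ^ L.length + val a L
        < idx a * (2 * n - 1) ^ L.length + (2 * n - 1) ^ L.length := by omega
      _ = (idx a + 1) * (2 * n - 1) ^ L.length := by ring
      _ ≤ (2 * n) * (2 * n - 1) ^ L.length := Nat.mul_le_mul_right _ h2

theorem iota_inj {L L' : List (Letter n)} (h : FreeGroup.IsReduced L)
    (h' : FreeGroup.IsReduced L') (hl : L.length = L'.length) (hv : iota L = iota L') :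
    L = L' := by
  cases L with
  | nil => 
    cases L' with
    | nil => rfl
    | cons => simp at hl
  | cons a L =>
    cases L' with
    | nil => simp at hl
    | cons b L' =>
      simp only [List.length_cons, Nat.add_right_cancel_iff] at hl
      simp only [iota] at hv
      rw [← hl] at hv
      have h1 := val_lt h
      have h2 := val_lt h'
      rw [← hl] at h2
      have hpos : 0 < (2 * n - 1) ^ L.length := by omega
      have hd : idx a = idx b := by
        have e1 : (idx a * (2 * n - 1) ^ L.length + val a L) / (2 * n - 1) ^ L.length
            = idx a := by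
          rw [Nat.add_comm, Nat.add_mul_div_right _ _ hpos, Nat.div_eq_of_lt h1, Nat.zero_add]
        have e2 : (idx b * (2 * n - 1) ^ L.length + val b L') / (2 * n - 1) ^ L.length
            = idx b := by
          rw [Nat.add_comm, Nat.add_mul_div_right _ _ hpos, Nat.div_eq_of_lt h2, Nat.zero_add]
        rw [← e1, ← e2, hv]
      have hab := idx_inj hd
      subst hab
      have hv' : val a L = val a L' := Nat.add_left_cancel hv
      rw [val_inj h h' hl hv']

theorem val_append (e : Letter n) (L u : List (Letter n)) :
    val e (L ++ u) = val e L * (2 * n - 1) ^ u.length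
      + val ((e :: L).getLast (List.cons_ne_nil _ _)) u := by
  induction L generalizing e with
  | nil => simp [val]
  | cons a L ih =>
    simp only [List.cons_append, val]
    rw [ih a]
    rw [List.getLast_cons (List.cons_ne_nil a L)]
    rw [List.length_append, pow_add]
    ring

theorem iota_append {L : List (Letter n)} (hL : L ≠ []) (u : List (Letter n)) :
    iota (L ++ u) = iota L * (2 * n - 1) ^ u.length + val (L.getLast hL) u := by
  cases L with
  | nil => exact absurd rfl hL
  | cons a L =>
    simp only [List.cons_append, iota]
    rw [val_append, List.length_append, pow_add]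
    ring

/-- correlation sum over consecutive letters with values in a ring -/
def kap {R : Type*} [CommRing R] : List (Letter n) → R
  | [] => 0
  | [_] => 0
  | a :: b :: L => (idx a : R) * (idx b : R) + kap (b :: L)

theorem kap_append {R : Type*} [CommRing R] {L : List (Letter n)} (hL : L ≠ []) (b : Letter n)
    (u : List (Letter n)) :
    (kap (L ++ b :: u) : R) = kap L + (idx (L.getLast hL) : R) * (idx b : R) + kap (b :: u) := by
  induction L with
  | nil => exact absurd rfl hL
  | cons a L ih =>
    cases L with
    | nil => simp [kap]
    | cons c L =>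
      have := ih (List.cons_ne_nil c L)
      simp only [List.cons_append] at this ⊢
      rw [kap, this, kap, List.getLast_cons (List.cons_ne_nil c L)]
      ring

end Pool.Agent.MP_db30a9_co
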