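import Mathlib
import Pool.Agent.MP_db30a9_co.A
import Pool.Agent.MP_db30a9_co.B

set_option autoImplicit false

namespace Pool.Agent.MP_db30a9_co

open FreeGroup

variable {n : ℕ}

/-- the check values of a word -/
def chk (s q p : ℕ) (w : List (Letter n)) : ZMod q × ZMod p :=
  (((iota (w.take s) : ℕ) : ZMod q) + ((iota (w.drop s) : ℕ) : ZMod q) ^ 2, kap (w.drop s))

theorem natCast_inj_of_lt {q a b : ℕ} (ha : a < q) (hb : b < q) (h : (a : ZMod q) = (b : ZMod q)) :
    a = b := by
  rw [ZMod.natCast_eq_natCast_iff'] at h
  rwa [Nat.mod_eq_of_lt ha, Nat.mod_eq_of_lt hb] at h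

theorem core {s q p : ℕ} (hs : 1 ≤ s) (hn : 2 ≤ n) [Fact q.Prime] [Fact p.Prime]
    (hq : 2 * n * (2 * n - 1) ^ (s - 1) < q) (hp : 2 * n < p)
    {P P' u v : List (Letter n)} (hPP : P.length = P'.length) (hPu : P.length + u.length = 2 * s)
    (huv : u.length = v.length) (hu : u ≠ []) (hne : HeadNe u v)
    (r1 : FreeGroup.IsReduced (P ++ u)) (r2 : FreeGroup.IsReduced (P ++ v))
    (r3 : FreeGroup.IsReduced (P' ++ u)) (r4 : FreeGroup.IsReduced (P' ++ v))
    (h1 : chk s q p (P ++ u) = chk s q p (P' ++ u))
    (h2 : chk s q p (P ++ v) = chk s q p (P' ++ v)) : P = P' := by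
  have hqlt : ∀ L : List (Letter n), FreeGroup.IsReduced L → L.length ≤ s → iota L < q := by
    intro L hL hLs
    have h0 := iota_lt hL (by omega)
    have h3 : (2 * n - 1) ^ (L.length - 1) ≤ (2 * n - 1) ^ (s - 1) :=
      Nat.pow_le_pow_right (by omega) (by omega)
    calc iota L < 2 * n * (2 * n - 1) ^ (L.length - 1) := h0
      _ ≤ 2 * n * (2 * n - 1) ^ (s - 1) := Nat.mul_le_mul_left _ h3
      _ < q := hq
  by_cases hPs : P.length ≤ s
  · have t1 : (P ++ u).take s = P ++ u.take (s - P.length) := by
      rw [List.take_append, List.take_of_length_le hPs]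
    have t2 : (P' ++ u).take s = P' ++ u.take (s - P.length) := by
      rw [List.take_append, List.take_of_length_le (hPP ▸ hPs), hPP]
    have d1 : (P ++ u).drop s = u.drop (s - P.length) := by
      rw [List.drop_append, List.drop_of_length_le hPs, List.nil_append]
    have d2 : (P' ++ u).drop s = u.drop (s - P.length) := by
      rw [List.drop_append, List.drop_of_length_le (hPP ▸ hPs), List.nil_append, hPP]
    have e := congrArg Prod.fst h1
    simp only [chk] at e
    rw [d1, d2, add_left_inj] at e
    have rt1 : FreeGroup.IsReduced ((P ++ u).take s) := isReduced_take r1 s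
    have rt2 : FreeGroup.IsReduced ((P' ++ u).take s) := isReduced_take r3 s
    have l1 : ((P ++ u).take s).length = s := by
      rw [List.length_take, List.length_append]; omega
    have l2 : ((P' ++ u).take s).length = s := by
      rw [List.length_take, List.length_append]; omega
    have e' := natCast_inj_of_lt (hqlt _ rt1 l1.le) (hqlt _ rt2 l2.le) e
    have e'' := iota_inj rt1 rt2 (l1.trans l2.symm) e'
    rw [t1, t2] at e''
    exact List.append_cancel_right e''
  · push Not at hPs
    obtain ⟨x, y, hxy, hx⟩ : ∃ x y, P = x ++ y ∧ x.length = s :=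
      ⟨P.take s, P.drop s, (List.take_append_drop s P).symm, by rw [List.length_take]; omega⟩
    obtain ⟨x', y', hxy', hx'⟩ : ∃ x y, P' = x ++ y ∧ x.length = s :=
      ⟨P'.take s, P'.drop s, (List.take_append_drop s P').symm, by rw [List.length_take]; omega⟩
    subst hxy; subst hxy'
    have hyl : y ≠ [] := by
      rintro rfl
      simp at hPs; omega
    have hyl' : y' ≠ [] := by
      rintro rfl
      simp at hPs hPP; omega
    have hyy : y.length = y'.length := by
      simp only [List.length_append] at hPP; omega
    have hys : y.length + u.length = s := by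
      simp only [List.length_append] at hPu; omega
    have tk : ∀ (z a : List (Letter n)), z.length = s → (z ++ a).take s = z := by
      intro z a hz; rw [← hz]; exact List.take_left
    have dk : ∀ (z a : List (Letter n)), z.length = s → (z ++ a).drop s = a := by
      intro z a hz; rw [← hz]; exact List.drop_left
    simp only [List.append_assoc] at h1 h2 r1 r2 r3 r4
    simp only [chk, tk _ _ hx, tk _ _ hx', dk _ _ hx, dk _ _ hx', Prod.mk.injEq] at h1 h2
    obtain ⟨A1, B1⟩ := h1
    obtain ⟨A2, B2⟩ := h2
    -- recover the last letter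
    obtain ⟨a, u', rfl⟩ : ∃ a u', u = a :: u' := List.exists_cons_of_ne_nil hu
    have hv : v ≠ [] := by
      rintro rfl
      simp at huv
    obtain ⟨b, v', rfl⟩ : ∃ b v', v = b :: v' := List.exists_cons_of_ne_nil hv
    have hab : a ≠ b := hne a b (by simp) (by simp)
    rw [kap_append hyl, kap_append hyl'] at B1 B2
    have hfac : ((idx (y.getLast hyl) : ZMod p) - (idx (y'.getLast hyl') : ZMod p)) *
        ((idx a : ZMod p) - (idx b : ZMod p)) = 0 := by
      linear_combination B1 - B2
    have hidx : ∀ c d : Letter n, (idx c : ZMod p) = (idx d : ZMod p) → c = d := by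
      intro c d hcd
      exact idx_inj (natCast_inj_of_lt ((idx_lt c).trans hp) ((idx_lt d).trans hp) hcd)
    have hlast : y.getLast hyl = y'.getLast hyl' := by
      rcases mul_eq_zero.mp hfac with h | h
      · exact hidx _ _ (sub_eq_zero.mp h)
      · exact absurd (hidx _ _ (sub_eq_zero.mp h)) hab
    -- the difference
    have lu := iota_append hyl (a :: u')
    have lu' := iota_append hyl' (a :: u')
    have lv := iota_append hyl (b :: v')
    have lv' := iota_append hyl' (b :: v')
    rw [← hlast] at lu' lv'
    have ry1 : FreeGroup.IsReduced (y ++ a :: u') := isReduced_right r1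
    have ry2 : FreeGroup.IsReduced (y ++ b :: v') := isReduced_right r2
    have ry3 : FreeGroup.IsReduced (y' ++ a :: u') := isReduced_right r3
    have ly1 : (y ++ a :: u').length = s := by rw [List.length_append]; exact hys
    have ly2 : (y ++ b :: v').length = s := by rw [List.length_append, ← huv]; exact hys
    have ly3 : (y' ++ a :: u').length = s := by rw [List.length_append, ← hyy]; exact hys
    have hdelta : ((iota (y ++ a :: u') : ℕ) : ZMod q) - ((iota (y ++ b :: v') : ℕ) : ZMod q) ≠ 0 := by
      intro h0
      have h0' := natCast_inj_of_lt (hqlt _ ry1 ly1.le) (hqlt _ ry2 ly2.le) (sub_eq_zero.mp h0)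
      have h0'' := iota_inj ry1 ry2 (ly1.trans ly2.symm) h0'
      have := List.append_cancel_left h0''
      simp at this
      exact hab this.1
    have hdd : ((iota (y ++ a :: u') : ℕ) : ZMod q) - ((iota (y ++ b :: v') : ℕ) : ZMod q)
        = ((iota (y' ++ a :: u') : ℕ) : ZMod q) - ((iota (y' ++ b :: v') : ℕ) : ZMod q) := by
      rw [lu, lu', lv, lv', ← huv]
      push_cast
      ring
    have h2q : (2 : ZMod q) ≠ 0 := by
      intro h
      have hq2 : 2 < q := by
        have : 1 ≤ (2 * n - 1) ^ (s - 1) := Nat.one_le_pow _ _ (by omega)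
        calc 2 < 2 * n * 1 := by omega
          _ ≤ 2 * n * (2 * n - 1) ^ (s - 1) := Nat.mul_le_mul_left _ this
          _ < q := hq
      have : ((2 : ℕ) : ZMod q) = ((0 : ℕ) : ZMod q) := by push_cast; exact h
      have := natCast_inj_of_lt hq2 (by omega) this
      omega
    have hY : ((iota (y ++ a :: u') : ℕ) : ZMod q) = ((iota (y' ++ a :: u') : ℕ) : ZMod q) := by
      set Y := ((iota (y ++ a :: u') : ℕ) : ZMod q)
      set Y' := ((iota (y' ++ a :: u') : ℕ) : ZMod q)
      set V := ((iota (y ++ b :: v') : ℕ) : ZMod q)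
      set V' := ((iota (y' ++ b :: v') : ℕ) : ZMod q)
      have hVV : V' = Y' - (Y - V) := by rw [hdd]; ring
      have h3 : Y ^ 2 - V ^ 2 = Y' ^ 2 - V' ^ 2 := by linear_combination A1 - A2
      rw [hVV] at h3
      have h4 : 2 * ((Y - V) * (Y - Y')) = 0 := by linear_combination h3
      rcases mul_eq_zero.mp h4 with h | h
      · exact absurd h h2q
      · rcases mul_eq_zero.mp h with h | h
        · exact absurd h hdelta
        · exact sub_eq_zero.mp h
    have hYn := natCast_inj_of_lt (hqlt _ ry1 ly1.le) (hqlt _ ry3 ly3.le) hY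
    have hYl := iota_inj ry1 ry3 (ly1.trans ly3.symm) hYn
    have hyeq : y = y' := List.append_cancel_right hYl
    rw [hY, add_left_inj] at A1
    have rx : FreeGroup.IsReduced x := isReduced_left r1
    have rx' : FreeGroup.IsReduced x' := isReduced_left r3
    have hXn := natCast_inj_of_lt (hqlt _ rx hx.le) (hqlt _ rx' hx'.le) A1
    have hxeq := iota_inj rx rx' (hx.trans hx'.symm) hXn
    rw [hxeq, hyeq]

end Pool.Agent.MP_db30a9_co
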