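import Mathlib
import Pool.Agent.MP_db30a9_co.C

set_option autoImplicit false

namespace Pool.Agent.MP_db30a9_co

open FreeGroup Finset

variable {n : ℕ}

theorem bar_bar (a : Letter n) : bar (bar a) = a := by
  rcases a with ⟨i, b⟩
  simp [bar]

/-- reduced words of length `t` that may follow the letter `e` -/
def W : ℕ → Letter n → Finset (List (Letter n))
  | 0, _ => {[]}
  | t + 1, e => (univ.filter (· ≠ bar e)).biUnion fun a => (W t a).image (List.cons a)

theorem mem_W {t : ℕ} {e : Letter n} {L : List (Letter n)} :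
    L ∈ W t e ↔ L.length = t ∧ FreeGroup.IsReduced (e :: L) := by
  induction t generalizing e L with
  | zero =>
    simp only [W, Finset.mem_singleton, List.length_eq_zero_iff]
    constructor
    · rintro rfl
      exact ⟨rfl, FreeGroup.IsReduced.singleton⟩
    · exact fun h => h.1
  | succ t ih =>
    simp only [W, Finset.mem_biUnion, Finset.mem_filter, Finset.mem_univ, true_and,
      Finset.mem_image]
    constructor
    · rintro ⟨a, ha, L', hL', rfl⟩
      rw [ih] at hL'
      exact ⟨by simp [hL'.1], isReduced_cons_cons_iff'.mpr ⟨ha, hL'.2⟩⟩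
    · rintro ⟨h1, h2⟩
      cases L with
      | nil => simp at h1
      | cons a L =>
        rw [isReduced_cons_cons_iff'] at h2
        exact ⟨a, h2.1, L, ih.mpr ⟨by simpa using h1, h2.2⟩, rfl⟩

theorem card_image_cons {t : ℕ} (a : Letter n) :
    ((W t a).image (List.cons a)).card = (W t a).card := by
  apply Finset.card_image_of_injective
  intro x y h
  simpa using h

theorem card_letter : Fintype.card (Letter n) = 2 * n := by
  simp [Letter, mul_comm]

theorem card_W (t : ℕ) (e : Letter n) : (W t e).card = (2 * n - 1) ^ t := by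
  induction t generalizing e with
  | zero => simp [W]
  | succ t ih =>
    rw [W, Finset.card_biUnion]
    · simp_rw [card_image_cons, ih]
      rw [Finset.sum_const, smul_eq_mul, Finset.filter_ne' , Finset.card_erase_of_mem (Finset.mem_univ _),
        Finset.card_univ, card_letter]
      ring
    · intro a _ b _ hab
      rw [Function.onFun, Finset.disjoint_left]
      intro L h1 h2
      simp only [Finset.mem_image] at h1 h2
      obtain ⟨L1, _, rfl⟩ := h1
      obtain ⟨L2, _, h⟩ := h2
      simp at h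
      exact hab h.1.symm

/-- reduced words of length `t` -/
def RW (n : ℕ) : ℕ → Finset (List (Letter n))
  | 0 => {[]}
  | t + 1 => univ.biUnion fun a => (W t a).image (List.cons a)

theorem mem_RW {t : ℕ} {L : List (Letter n)} :
    L ∈ RW n t ↔ L.length = t ∧ FreeGroup.IsReduced L := by
  cases t with
  | zero =>
    simp only [RW, Finset.mem_singleton, List.length_eq_zero_iff]
    constructor
    · rintro rfl
      exact ⟨rfl, FreeGroup.IsReduced.nil⟩
    · exact fun h => h.1
  | succ t =>
    simp only [RW, Finset.mem_biUnion, Finset.mem_univ, true_and, Finset.mem_image]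
    constructor
    · rintro ⟨a, L', hL', rfl⟩
      rw [mem_W] at hL'
      exact ⟨by simp [hL'.1], hL'.2⟩
    · rintro ⟨h1, h2⟩
      cases L with
      | nil => simp at h1
      | cons a L =>
        exact ⟨a, L, mem_W.mpr ⟨by simpa using h1, h2⟩, rfl⟩

theorem card_RW (t : ℕ) : (RW n (t + 1)).card = 2 * n * (2 * n - 1) ^ t := by
  rw [RW, Finset.card_biUnion]
  · simp_rw [card_image_cons, card_W]
    rw [Finset.sum_const, smul_eq_mul, Finset.card_univ, card_letter]
  · intro a _ b _ hab
    rw [Function.onFun, Finset.disjoint_left]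
    intro L h1 h2
    simp only [Finset.mem_image] at h1 h2
    obtain ⟨L1, _, rfl⟩ := h1
    obtain ⟨L2, _, h⟩ := h2
    simp at h
    exact hab h.1.symm

theorem isReduced_append_cons {w z : List (Letter n)} {c : Letter n}
    (h1 : FreeGroup.IsReduced w) (h2 : FreeGroup.IsReduced (c :: z))
    (h : ∀ e ∈ w.getLast?, c ≠ bar e) : FreeGroup.IsReduced (w ++ c :: z) := by
  unfold FreeGroup.IsReduced at *
  rw [List.isChain_append]
  refine ⟨h1, h2, ?_⟩
  intro x hx y hy hxy
  simp at hy
  subst hy
  have := h x hx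
  rcases x with ⟨x1, x2⟩
  rcases c with ⟨c1, c2⟩
  simp only at hxy
  subst hxy
  cases x2 <;> cases c2 <;> simp_all [bar]

theorem exists_conn (hn : 2 ≤ n) {w z : List (Letter n)}
    (h1 : FreeGroup.IsReduced w) (h2 : FreeGroup.IsReduced z) :
    ∃ c : Letter n, FreeGroup.IsReduced (w ++ c :: z) := by
  have key : ∀ e f : Letter n, ∃ c : Letter n, c ≠ e ∧ c ≠ f := by
    intro e f
    have : (({e, f} : Finset (Letter n))).card < Fintype.card (Letter n) := by
      rw [card_letter]
      have := Finset.card_le_two (a := e) (b := f)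
      omega
    obtain ⟨c, hc⟩ := Finset.exists_mem_notMem_of_card_lt_card (s := ({e, f} : Finset (Letter n)))
      (t := Finset.univ) (by rwa [Finset.card_univ])
    simp at hc
    exact ⟨c, hc.1, hc.2⟩
  have i0 : Letter n := (⟨0, by omega⟩, true)
  obtain ⟨c, hc1, hc2⟩ := key (bar (w.getLast?.getD i0)) (bar (z.head?.getD i0))
  refine ⟨c, isReduced_append_cons h1 ?_ ?_⟩
  · cases z with
    | nil => exact FreeGroup.IsReduced.singleton
    | cons f z =>
      rw [isReduced_cons_cons_iff']
      refine ⟨?_, h2⟩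
      intro hf
      apply hc2
      simp [hf, bar_bar]
  · intro e he
    have : w.getLast? = some e := he
    rw [this] at hc1
    simpa using hc1

theorem exists_ddc (hn : 2 ≤ n) {s : ℕ} (hs : 1 ≤ s) :
    ∃ φ : List (Letter n) → List (Letter n),
      (∀ w ∈ RW n (2 * s), φ w ∈ RW n (3 * s + 4)) ∧
      (∀ w₁ ∈ RW n (2 * s), ∀ w₂ ∈ RW n (2 * s), φ w₁ = φ w₂ → w₁ = w₂) ∧
      (∀ w₁ ∈ RW n (2 * s), ∀ w₂ ∈ RW n (2 * s), ∀ w₃ ∈ RW n (2 * s), ∀ w₄ ∈ RW n (2 * s),
        w₁ ≠ w₂ → w₃ ≠ w₄ → (mk (φ w₁))⁻¹ * mk (φ w₂) = (mk (φ w₃))⁻¹ * mk (φ w₄) →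
        w₁ = w₃ ∧ w₂ = w₄) := by
  classical
  have hN0 : 2 * n * (2 * n - 1) ^ (s - 1) ≠ 0 := by
    have : 0 < (2 * n - 1) ^ (s - 1) := Nat.pow_pos (by omega)
    positivity
  obtain ⟨q, hqp, hq1, hq2⟩ := Nat.exists_prime_lt_and_le_two_mul
    (2 * n * (2 * n - 1) ^ (s - 1)) hN0
  obtain ⟨p, hpp, hp1, hp2⟩ := Nat.exists_prime_lt_and_le_two_mul (2 * n) (by omega)
  have : Fact q.Prime := ⟨hqp⟩
  have : Fact p.Prime := ⟨hpp⟩
  have : NeZero q := ⟨hqp.ne_zero⟩
  have : NeZero p := ⟨hpp.ne_zero⟩
  obtain ⟨e0⟩ : Nonempty (Letter n) := ⟨(⟨0, by omega⟩, true)⟩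
  obtain ⟨S, hS⟩ : ∃ S : Finset (List (Letter n)), S = W (s + 3) e0 := ⟨_, rfl⟩
  have hcard : Fintype.card (ZMod q × ZMod p) ≤ Fintype.card S := by
    have hWc : Fintype.card S = (2 * n - 1) ^ (s + 3) := by
      rw [Fintype.card_coe, hS, card_W]
    rw [Fintype.card_prod, ZMod.card, ZMod.card, hWc]
    have h4 : 4 * n ≤ (2 * n - 1) ^ 2 := by
      obtain ⟨k, rfl⟩ : ∃ k, n = k + 2 := ⟨n - 2, by omega⟩
      have : 2 * (k + 2) - 1 = 2 * k + 3 := by omega
      rw [this]
      nlinarith
    have hsplit : (2 * n - 1) ^ (s + 3) = (2 * n - 1) ^ (s - 1) * ((2 * n - 1) ^ 2 * (2 * n - 1) ^ 2) := by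
      rw [← pow_add, ← pow_add]
      congr 1
      omega
    rw [hsplit]
    calc q * p ≤ (2 * (2 * n * (2 * n - 1) ^ (s - 1))) * (2 * (2 * n)) := Nat.mul_le_mul hq2 hp2
      _ = (2 * n - 1) ^ (s - 1) * ((4 * n) * (4 * n)) := by ring
      _ ≤ (2 * n - 1) ^ (s - 1) * ((2 * n - 1) ^ 2 * (2 * n - 1) ^ 2) :=
        Nat.mul_le_mul_left _ (Nat.mul_le_mul h4 h4)
  obtain ⟨code⟩ := Function.Embedding.nonempty_of_card_le hcard
  have hcode : ∀ v, (code v : List (Letter n)).length = s + 3 ∧
      FreeGroup.IsReduced (code v : List (Letter n)) := by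
    intro v
    have h0 : ∀ x ∈ S, x.length = s + 3 ∧ FreeGroup.IsReduced (e0 :: x) := by
      intro x hx
      rw [hS] at hx
      exact mem_W.mp hx
    have := h0 _ (code v).2
    exact ⟨this.1, isReduced_tail this.2⟩
  have hcodeinj : ∀ v v', (code v : List (Letter n)) = code v' → v = v' := by
    intro v v' h
    exact code.injective (Subtype.ext h)
  have hex : ∀ w ∈ RW n (2 * s), ∃ c : Letter n,
      FreeGroup.IsReduced (w ++ c :: (code (chk s q p w) : List (Letter n))) := by
    intro w hw
    exact exists_conn hn (mem_RW.mp hw).2 (hcode _).2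
  have : Nonempty (Letter n) := ⟨e0⟩
  choose! c hc using hex
  let φ : List (Letter n) → List (Letter n) := fun w => w ++ c w :: (code (chk s q p w) : List (Letter n))
  have hφl : ∀ w ∈ RW n (2 * s), (φ w).length = 3 * s + 4 := by
    intro w hw
    have h1 := (mem_RW.mp hw).1
    have h2 := (hcode (chk s q p w)).1
    simp only [φ, List.length_append, List.length_cons, h1, h2]
    ring
  have hφr : ∀ w ∈ RW n (2 * s), FreeGroup.IsReduced (φ w) := hc
  have htake : ∀ w ∈ RW n (2 * s), (φ w).take (2 * s) = w := by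
    intro w hw
    have h1 := (mem_RW.mp hw).1
    simp only [φ]
    rw [← h1]
    exact List.take_left
  have hinj : ∀ w₁ ∈ RW n (2 * s), ∀ w₂ ∈ RW n (2 * s), φ w₁ = φ w₂ → w₁ = w₂ := by
    intro w₁ h₁ w₂ h₂ h
    rw [← htake w₁ h₁, ← htake w₂ h₂, h]
  refine ⟨φ, fun w hw => mem_RW.mpr ⟨hφl w hw, hφr w hw⟩, hinj, ?_⟩
  intro w₁ h₁ w₂ h₂ w₃ h₃ w₄ h₄ h12 h34 heq
  obtain ⟨P, a, b, hP1, hP2, hab⟩ := exists_split (φ w₁) (φ w₂)
  obtain ⟨P', a', b', hP3, hP4, hab'⟩ := exists_split (φ w₃) (φ w₄)
  have r1 := hφr w₁ h₁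
  have r2 := hφr w₂ h₂
  have r3 := hφr w₃ h₃
  have r4 := hφr w₄ h₄
  have l1 := hφl w₁ h₁
  have l2 := hφl w₂ h₂
  have l3 := hφl w₃ h₃
  have l4 := hφl w₄ h₄
  rw [hP1] at r1 l1
  rw [hP2] at r2 l2
  rw [hP3] at r3 l3
  rw [hP4] at r4 l4
  have hw := congrArg toWord heq
  rw [hP1, hP2, hP3, hP4, toWord_quot r1 r2 hab, toWord_quot r3 r4 hab'] at hw
  simp only [List.length_append] at l1 l2 l3 l4
  have hlen : a.length = a'.length := by
    have := congrArg List.length hw
    simp only [List.length_append, invRev_length] at this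
    omega
  have hsp := List.append_inj hw (by simp only [invRev_length]; exact hlen)
  have haa : a = a' := invRev_injective hsp.1
  have hbb : b = b' := hsp.2
  subst haa; subst hbb
  have hPl : P.length < 2 * s := by
    by_contra hcon
    push Not at hcon
    apply h12
    apply hinj _ h₁ _ h₂
    have e1 : P.take (2 * s) = w₁ := by
      rw [← htake w₁ h₁, hP1, List.take_append_of_le_length hcon]
    have e2 : P.take (2 * s) = w₂ := by
      rw [← htake w₂ h₂, hP2, List.take_append_of_le_length hcon]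
    rw [← e1, ← e2]
  have hPP : P.length = P'.length := by omega
  -- the pieces
  have hu : w₁ = P ++ a.take (2 * s - P.length) := by
    conv_lhs => rw [← htake w₁ h₁, hP1, List.take_append, List.take_of_length_le hPl.le]
  have hv : w₂ = P ++ b.take (2 * s - P.length) := by
    conv_lhs => rw [← htake w₂ h₂, hP2, List.take_append, List.take_of_length_le hPl.le]
  have hu' : w₃ = P' ++ a.take (2 * s - P.length) := by
    conv_lhs => rw [← htake w₃ h₃, hP3, List.take_append, List.take_of_length_le (hPP ▸ hPl.le), ← hPP]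
  have hv' : w₄ = P' ++ b.take (2 * s - P.length) := by
    conv_lhs => rw [← htake w₄ h₄, hP4, List.take_append, List.take_of_length_le (hPP ▸ hPl.le), ← hPP]
  have hdrop : ∀ w ∈ RW n (2 * s), (φ w).drop (2 * s) = c w :: (code (chk s q p w) : List (Letter n)) := by
    intro w hw
    have h1 := (mem_RW.mp hw).1
    simp only [φ]
    rw [← h1]
    exact List.drop_left
  have hd1 : c w₁ :: (code (chk s q p w₁) : List (Letter n)) = a.drop (2 * s - P.length) := by
    rw [← hdrop w₁ h₁, hP1, List.drop_append, List.drop_of_length_le hPl.le, List.nil_append]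
  have hd2 : c w₂ :: (code (chk s q p w₂) : List (Letter n)) = b.drop (2 * s - P.length) := by
    rw [← hdrop w₂ h₂, hP2, List.drop_append, List.drop_of_length_le hPl.le, List.nil_append]
  have hd3 : c w₃ :: (code (chk s q p w₃) : List (Letter n)) = a.drop (2 * s - P.length) := by
    rw [← hdrop w₃ h₃, hP3, List.drop_append, List.drop_of_length_le (hPP ▸ hPl.le), List.nil_append, hPP]
  have hd4 : c w₄ :: (code (chk s q p w₄) : List (Letter n)) = b.drop (2 * s - P.length) := by
    rw [← hdrop w₄ h₄, hP4, List.drop_append, List.drop_of_length_le (hPP ▸ hPl.le), List.nil_append, hPP]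
  have hc1 : chk s q p w₁ = chk s q p w₃ := by
    exact hcodeinj _ _ (List.cons.inj (hd1.trans hd3.symm)).2
  have hc2 : chk s q p w₂ = chk s q p w₄ := by
    exact hcodeinj _ _ (List.cons.inj (hd2.trans hd4.symm)).2
  have hane : a ≠ [] := by
    rintro rfl
    simp at l1; omega
  have hbne : b ≠ [] := by
    rintro rfl
    simp at l2; omega
  have hpos : 2 * s - P.length ≠ 0 := by omega
  have hHead : HeadNe (a.take (2 * s - P.length)) (b.take (2 * s - P.length)) := by
    intro x y hx hy
    apply hab x y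
    · rw [List.head?_take] at hx
      simpa [hpos] using hx
    · rw [List.head?_take] at hy
      simpa [hpos] using hy
  have hfin : P = P' := by
    apply core (s := s) (q := q) (p := p) hs hn hq1 hp1 (u := a.take (2 * s - P.length))
      (v := b.take (2 * s - P.length)) hPP
    · rw [List.length_take]; omega
    · rw [List.length_take, List.length_take]; omega
    · intro h0
      rw [List.take_eq_nil_iff] at h0
      rcases h0 with h0 | h0
      · exact hpos h0
      · exact hane h0
    · exact hHead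
    · rw [← hu]; exact (mem_RW.mp h₁).2
    · rw [← hv]; exact (mem_RW.mp h₂).2
    · rw [← hu']; exact (mem_RW.mp h₃).2
    · rw [← hv']; exact (mem_RW.mp h₄).2
    · rw [← hu, ← hu']; exact hc1
    · rw [← hv, ← hv']; exact hc2
  constructor
  · rw [hu, hu', hfin]
  · rw [hv, hv', hfin]

end Pool.Agent.MP_db30a9_co
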